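import Pool.Agent.Lib.MP_3ade05_lc.Defs
import Pool.Agent.Lib.MP_ad72f3_pc.Pat
import Mathlib

/-!
# NU: definitions, universe polymorphic
-/

set_option autoImplicit false

namespace Pool.NU

universe u

open Pool.MP_3ade05_lc (Fml)

/-- Satisfaction in ` (E, ∈)`. -/
def Sat (E : Set ZFSet.{u}) : {n : ℕ} → Fml n → (Fin n → ZFSet.{u}) → Prop
  | _, .bot, _ => False
  | _, .eq i j, v => v i = v j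
  | _, .mem i j, v => v i ∈ v j
  | _, .imp φ ψ, v => Sat E φ v → Sat E ψ v
  | _, .all φ, v => ∀ x ∈ E, Sat E φ (Fin.cons x v)

/-- ` (E, ∈)` is a model of `ZF`. -/
structure ZFModel (E : Set ZFSet.{u}) : Prop where
  nonempty : E.Nonempty
  extensionality : ∀ x ∈ E, ∀ y ∈ E, (∀ z ∈ E, z ∈ x ↔ z ∈ y) → x = y
  foundation : ∀ x ∈ E, (∃ y ∈ E, y ∈ x) → ∃ y ∈ E, y ∈ x ∧ ∀ z ∈ E, z ∈ y → z ∉ x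
  pairing : ∀ x ∈ E, ∀ y ∈ E, ∃ z ∈ E, ∀ w ∈ E, w ∈ z ↔ w = x ∨ w = y
  union : ∀ x ∈ E, ∃ u ∈ E, ∀ z ∈ E, z ∈ u ↔ ∃ y ∈ E, y ∈ x ∧ z ∈ y
  power : ∀ x ∈ E, ∃ p ∈ E, ∀ z ∈ E, z ∈ p ↔ ∀ w ∈ E, w ∈ z → w ∈ x
  infinity : ∃ x ∈ E, (∃ e ∈ E, e ∈ x ∧ ∀ z ∈ E, z ∉ e) ∧
    ∀ y ∈ E, y ∈ x → ∃ z ∈ E, z ∈ x ∧ ∀ w ∈ E, w ∈ z ↔ w ∈ y ∨ w = y
  separation : ∀ (n : ℕ) (φ : Fml (n + 1)) (v : Fin n → ZFSet.{u}), (∀ i, v i ∈ E) →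
    ∀ a ∈ E, ∃ b ∈ E, ∀ x ∈ E, x ∈ b ↔ x ∈ a ∧ Sat E φ (Fin.cons x v)
  replacement : ∀ (n : ℕ) (φ : Fml (n + 2)) (v : Fin n → ZFSet.{u}), (∀ i, v i ∈ E) →
    ∀ a ∈ E, (∀ x ∈ E, x ∈ a → ∃! y, y ∈ E ∧ Sat E φ (Fin.cons x (Fin.cons y v))) →
      ∃ b ∈ E, ∀ y ∈ E, y ∈ b ↔ ∃ x ∈ E, x ∈ a ∧ Sat E φ (Fin.cons x (Fin.cons y v))

/-- The transitive set `V`, with the membership relation, is a model of `ZFC`. -/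
structure ZFCModel (V : Set ZFSet.{u}) : Prop extends ZFModel V where
  choice : ∀ x ∈ V, (∀ y ∈ V, y ∈ x → ∃ z ∈ V, z ∈ y) →
    (∀ y ∈ V, ∀ y' ∈ V, y ∈ x → y' ∈ x → y ≠ y' → ∀ z ∈ V, ¬ (z ∈ y ∧ z ∈ y')) →
    ∃ c ∈ V, ∀ y ∈ V, y ∈ x → ∃! z, z ∈ V ∧ z ∈ y ∧ z ∈ c

/-- `f` is a function (a set of ordered pairs) with domain `a`. -/
def FunOn (f a : ZFSet.{u}) : Prop :=
  (∀ z ∈ f, ∃ x ∈ a, ∃ y, z = ZFSet.pair x y) ∧ ∀ x ∈ a, ∃! y, ZFSet.pair x y ∈ f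

/-- `c` is an infinite cardinal of the transitive model `V`. -/
structure InfCard (V : Set ZFSet.{u}) (c : ZFSet.{u}) : Prop where
  mem : c ∈ V
  ord : c.IsOrdinal
  inf : ZFSet.omega ⊆ c
  card : ∀ a ∈ c, ∀ f ∈ V, FunOn f a → ∃ y ∈ c, ∀ x ∈ a, ZFSet.pair x y ∉ f

/-- `c` is the least infinite cardinal of `V` greater than `b`. -/
def NextCard (V : Set ZFSet.{u}) (b c : ZFSet.{u}) : Prop :=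
  InfCard V c ∧ b ∈ c ∧ ∀ d ∈ c, InfCard V d → d ∈ b ∨ d = b

/-- The von Neumann numerals. -/
def num : ℕ → ZFSet.{u}
  | 0 => ∅
  | n + 1 => insert (num n) (num n)

end Pool.NU
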