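import Mathlib
import Pool.Agent.Lib.MP_3ade05_lc.Defs
import Pool.Agent.Lib.NU.Gen

/-!
# MP_3ade05_lc: class forcing over the universe of types

Names are `Type`-indexed families of (name, lower set of conditions); forcing of atomic
formulas, forcing of arbitrary formulas with quantifiers ranging over a class `𝒩` of names,
action of monotone maps, reindexing equivalence.
-/

namespace Pool.NU

universe u

open Set
open Pool.MP_3ade05_lc (Fml)


/-- Names for a forcing `P` in `Type (u + 1)`. -/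
inductive Name (P : Type (u + 1)) [Preorder P] : Type (u + 1)
  | mk (ι : Type u) (A : ι → Name P) (c : ι → LowerSet P) : Name P

namespace Name

variable {P : Type (u + 1)} [Preorder P]

/-- index type -/
def ι : Name P → Type u | .mk i _ _ => i
/-- members -/
def A : (σ : Name P) → σ.ι → Name P | .mk _ a _ => a
/-- conditions -/
def c : (σ : Name P) → σ.ι → LowerSet P | .mk _ _ d => d

@[simp] lemma mk_ι (ι : Type u) (A : ι → Name P) (c : ι → LowerSet P) : (mk ι A c).ι = ι := rfl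
@[simp] lemma mk_A (ι : Type u) (A : ι → Name P) (c : ι → LowerSet P) : (mk ι A c).A = A := rfl
@[simp] lemma mk_c (ι : Type u) (A : ι → Name P) (c : ι → LowerSet P) : (mk ι A c).c = c := rfl

lemma eta (σ : Name P) : σ = mk σ.ι σ.A σ.c := by cases σ; rfl

lemma ind {C : Name P → Prop} (σ : Name P) (h : ∀ σ : Name P, (∀ k, C (σ.A k)) → C σ) : C σ := by
  induction σ with
  | mk ι A c ih => exact h _ ih

/-- `σ = τ` is forced by `p`. -/
def feq : Name P → Name P → P → Prop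
  | mk ι A c, mk ι' A' c' => fun p =>
    (∀ q ≤ p, ∀ k : ι, q ∈ c k → ∃ r ≤ q, ∃ l : ι', r ∈ c' l ∧ feq (A k) (A' l) r) ∧
      (∀ q ≤ p, ∀ l : ι', q ∈ c' l → ∃ r ≤ q, ∃ k : ι, r ∈ c k ∧ feq (A k) (A' l) r)

lemma feq_def (σ τ : Name P) (p : P) : feq σ τ p ↔
    (∀ q ≤ p, ∀ k : σ.ι, q ∈ σ.c k → ∃ r ≤ q, ∃ l : τ.ι, r ∈ τ.c l ∧ feq (σ.A k) (τ.A l) r) ∧
      (∀ q ≤ p, ∀ l : τ.ι, q ∈ τ.c l → ∃ r ≤ q, ∃ k : σ.ι, r ∈ σ.c k ∧ feq (σ.A k) (τ.A l) r) := by
  cases σ; cases τ; rfl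

/-- `σ ∈ τ` is forced by `p`. -/
def fmem (σ τ : Name P) (p : P) : Prop :=
  ∀ q ≤ p, ∃ r ≤ q, ∃ l : τ.ι, r ∈ τ.c l ∧ feq σ (τ.A l) r

lemma feq_mono {σ τ : Name P} {p q : P} (h : feq σ τ p) (hq : q ≤ p) : feq σ τ q := by
  rw [feq_def] at h ⊢
  exact ⟨fun r hr => h.1 r (hr.trans hq), fun r hr => h.2 r (hr.trans hq)⟩

lemma feq_refl (σ : Name P) (p : P) : feq σ σ p := by
  induction σ using ind generalizing p with
  | h σ ih =>
    rw [feq_def]
    exact ⟨fun q _ k hk => ⟨q, le_rfl, k, hk, ih k q⟩, fun q _ k hk => ⟨q, le_rfl, k, hk, ih k q⟩⟩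

lemma feq_symm {σ τ : Name P} {p : P} (h : feq σ τ p) : feq τ σ p := by
  induction σ using ind generalizing τ p with
  | h σ ih =>
    rw [feq_def] at h ⊢
    refine ⟨fun q hq l hl => ?_, fun q hq k hk => ?_⟩
    · obtain ⟨r, hr, k, hk, he⟩ := h.2 q hq l hl
      exact ⟨r, hr, k, hk, ih k he⟩
    · obtain ⟨r, hr, l, hl, he⟩ := h.1 q hq k hk
      exact ⟨r, hr, l, hl, ih k he⟩

lemma feq_reg {σ τ : Name P} {p : P} (h : ∀ q ≤ p, ∃ r ≤ q, feq σ τ r) : feq σ τ p := by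
  rw [feq_def]
  refine ⟨fun q hq k hk => ?_, fun q hq l hl => ?_⟩
  · obtain ⟨r, hr, he⟩ := h q hq
    obtain ⟨s, hs, l, hl, he'⟩ := ((feq_def _ _ _).1 he).1 r le_rfl k ((σ.c k).lower hr hk)
    exact ⟨s, hs.trans hr, l, hl, he'⟩
  · obtain ⟨r, hr, he⟩ := h q hq
    obtain ⟨s, hs, k, hk, he'⟩ := ((feq_def _ _ _).1 he).2 r le_rfl l ((τ.c l).lower hr hl)
    exact ⟨s, hs.trans hr, k, hk, he'⟩

lemma feq_trans {σ τ ρ : Name P} {p : P} (h₁ : feq σ τ p) (h₂ : feq τ ρ p) : feq σ ρ p := by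
  induction σ using ind generalizing τ ρ p with
  | h σ ih =>
    rw [feq_def] at h₁ h₂ ⊢
    refine ⟨fun q hq k hk => ?_, fun q hq m hm => ?_⟩
    · obtain ⟨r, hr, l, hl, he⟩ := h₁.1 q hq k hk
      obtain ⟨s, hs, m, hm, he'⟩ := h₂.1 r (hr.trans hq) l hl
      exact ⟨s, hs.trans hr, m, hm, ih k (feq_mono he hs) he'⟩
    · obtain ⟨r, hr, l, hl, he⟩ := h₂.2 q hq m hm
      obtain ⟨s, hs, k, hk, he'⟩ := h₁.2 r (hr.trans hq) l hl
      exact ⟨s, hs.trans hr, k, hk, ih k he' (feq_mono he hs)⟩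

lemma fmem_mono {σ τ : Name P} {p q : P} (h : fmem σ τ p) (hq : q ≤ p) : fmem σ τ q :=
  fun r hr => h r (hr.trans hq)

lemma fmem_reg {σ τ : Name P} {p : P} (h : ∀ q ≤ p, ∃ r ≤ q, fmem σ τ r) : fmem σ τ p := by
  intro q hq
  obtain ⟨r, hr, hm⟩ := h q hq
  obtain ⟨s, hs, l, hl, he⟩ := hm r le_rfl
  exact ⟨s, hs.trans hr, l, hl, he⟩

lemma fmem_congr {σ σ' τ τ' : Name P} {p : P} (h₁ : feq σ σ' p) (h₂ : feq τ τ' p)
    (h : fmem σ τ p) : fmem σ' τ' p := by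
  intro q hq
  obtain ⟨r, hr, l, hl, he⟩ := h q hq
  obtain ⟨s, hs, l', hl', he'⟩ := ((feq_def _ _ _).1 h₂).1 r (hr.trans hq) l hl
  exact ⟨s, hs.trans hr, l', hl',
    feq_trans (feq_symm (feq_mono h₁ ((hs.trans hr).trans hq))) (feq_trans (feq_mono he hs) he')⟩

lemma fmem_of {σ : Name P} {k : σ.ι} {p : P} (h : p ∈ σ.c k) : fmem (σ.A k) σ p :=
  fun q hq => ⟨q, le_rfl, k, (σ.c k).lower hq h, feq_refl _ _⟩

/-! ### Formulas -/

/-- `φ(v)` is forced by `p`, the quantifiers ranging over the class `N` of names. -/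
def Fc (N : Set (Name P)) : {n : ℕ} → Fml n → (Fin n → Name P) → P → Prop
  | _, .bot, _, _ => False
  | _, .eq i j, v, p => feq (v i) (v j) p
  | _, .mem i j, v, p => fmem (v i) (v j) p
  | _, .imp φ ψ, v, p => ∀ q ≤ p, Fc N φ v q → Fc N ψ v q
  | _, .all φ, v, p => ∀ σ ∈ N, Fc N φ (Fin.cons σ v) p

lemma Fc_mono {N : Set (Name P)} {n : ℕ} {φ : Fml n} {v : Fin n → Name P} {p q : P}
    (h : Fc N φ v p) (hq : q ≤ p) : Fc N φ v q := by
  induction φ generalizing p q with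
  | bot => exact h
  | eq i j => exact feq_mono h hq
  | mem i j => exact fmem_mono h hq
  | imp φ ψ _ _ => exact fun r hr => h r (hr.trans hq)
  | all φ ih => exact fun σ hσ => ih (h σ hσ) hq

lemma Fc_reg {N : Set (Name P)} {n : ℕ} {φ : Fml n} {v : Fin n → Name P} {p : P}
    (h : ∀ q ≤ p, ∃ r ≤ q, Fc N φ v r) : Fc N φ v p := by
  induction φ generalizing p with
  | bot => obtain ⟨_, _, h⟩ := h p le_rfl; exact h
  | eq i j => exact feq_reg h
  | mem i j => exact fmem_reg h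
  | imp φ ψ _ ih =>
    intro q hq hφ
    refine ih (fun r hr => ?_)
    obtain ⟨s, hs, hi⟩ := h r (hr.trans hq)
    exact ⟨s, hs, hi s le_rfl (Fc_mono hφ (hs.trans hr))⟩
  | all φ ih =>
    intro σ hσ
    refine ih (fun q hq => ?_)
    obtain ⟨r, hr, ha⟩ := h q hq
    exact ⟨r, hr, ha σ hσ⟩

lemma Fc_congr {N : Set (Name P)} {n : ℕ} {φ : Fml n} {v v' : Fin n → Name P} {p : P}
    (hv : ∀ i, feq (v i) (v' i) p) : Fc N φ v p ↔ Fc N φ v' p := by
  induction φ generalizing p with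
  | bot => exact Iff.rfl
  | eq i j =>
    exact ⟨fun h => feq_trans (feq_symm (hv i)) (feq_trans h (hv j)),
      fun h => feq_trans (hv i) (feq_trans h (feq_symm (hv j)))⟩
  | mem i j =>
    exact ⟨fun h => fmem_congr (hv i) (hv j) h,
      fun h => fmem_congr (feq_symm (hv i)) (feq_symm (hv j)) h⟩
  | imp φ ψ ih₁ ih₂ =>
    refine forall₂_congr fun q hq => ?_
    rw [ih₁ (fun i => feq_mono (hv i) hq), ih₂ (fun i => feq_mono (hv i) hq)]
  | all φ ih =>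
    refine forall₂_congr fun σ hσ => ih (fun i => ?_)
    refine Fin.cases ?_ (fun i => ?_) i
    · exact feq_refl _ _
    · exact hv i

end Name

end Pool.NU
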