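import Mathlib
import Pool.Agent.Lib.NU.Val
import Pool.Agent.Lib.MP_3ade05_lc.Model

/-!
# NU: closure properties imply ZF
-/

namespace Pool.NU

universe u

open Set
open Pool.MP_3ade05_lc (Fml)
open Pool.MP_3ade05_lc.Fml

variable {E : Set ZFSet.{u}}

lemma Sat_neg {n : ℕ} {φ : Fml n} {v : Fin n → ZFSet.{u}} : Sat E φ.neg v ↔ ¬ Sat E φ v := Iff.rfl

lemma Sat_conj {n : ℕ} {φ ψ : Fml n} {v : Fin n → ZFSet.{u}} :
    Sat E (φ.conj ψ) v ↔ Sat E φ v ∧ Sat E ψ v := by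
  show ¬ (Sat E φ v → ¬ Sat E ψ v) ↔ _
  push Not
  rfl

lemma Sat_ex {n : ℕ} {φ : Fml (n + 1)} {v : Fin n → ZFSet.{u}} :
    Sat E φ.ex v ↔ ∃ x ∈ E, Sat E φ (Fin.cons x v) := by
  show ¬ (∀ x ∈ E, ¬ Sat E φ (Fin.cons x v)) ↔ _
  push Not
  rfl

lemma Sat_rename {n m : ℕ} {φ : Fml n} {f : Fin n → Fin m} {v : Fin m → ZFSet.{u}} :
    Sat E (φ.rename f) v ↔ Sat E φ (fun j => v (f j)) := by
  induction φ generalizing m with
  | bot => exact Iff.rfl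
  | eq i j => exact Iff.rfl
  | mem i j => exact Iff.rfl
  | imp φ ψ ih₁ ih₂ => exact imp_congr ih₁ ih₂
  | all φ ih =>
    refine forall₂_congr fun x _ => ?_
    rw [ih]
    have : (fun j => (Fin.cons x v : Fin (m + 1) → ZFSet.{u})
        ((Fin.cons 0 (fun j => (f j).succ) : Fin _ → Fin (m + 1)) j)) =
        (Fin.cons x (fun j => v (f j)) : Fin _ → ZFSet.{u}) := by
      funext j
      refine Fin.cases ?_ (fun j => ?_) j <;> rfl
    rw [this]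

/-- A transitive class with first-order Separation, Collection, and closure properties is a
model of ZF. -/
theorem zf_of (htr : ∀ x ∈ E, ∀ y ∈ x, y ∈ E)
    (hsep : ∀ (n : ℕ) (φ : Fml (n + 1)) (v : Fin n → ZFSet.{u}), (∀ i, v i ∈ E) →
      ∀ a ∈ E, ∃ b ∈ E, ∀ x, x ∈ b ↔ x ∈ a ∧ Sat E φ (Fin.cons x v))
    (hcol : ∀ (n : ℕ) (φ : Fml (n + 2)) (v : Fin n → ZFSet.{u}), (∀ i, v i ∈ E) →
      ∀ a ∈ E, ∃ b ∈ E, ∀ x ∈ a, (∃ y ∈ E, Sat E φ (Fin.cons x (Fin.cons y v))) →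
        ∃ y ∈ b, Sat E φ (Fin.cons x (Fin.cons y v)))
    (hpair : ∀ x ∈ E, ∀ y ∈ E, ({x, y} : ZFSet.{u}) ∈ E)
    (hun : ∀ x ∈ E, ∃ b ∈ E, ∀ y ∈ x, ∀ z ∈ y, z ∈ b)
    (hpow : ∀ x ∈ E, ∃ b ∈ E, ∀ z ∈ E, z ⊆ x → z ∈ b)
    (hinf : ∃ x ∈ E, ∅ ∈ x ∧ ∀ y ∈ x, insert y y ∈ x) : ZFModel E where
  nonempty := hinf.imp fun _ h => h.1
  extensionality x hx y hy h := by
    ext z
    constructor
    · intro hz
      exact (h z (htr x hx z hz)).1 hz
    · intro hz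
      exact (h z (htr y hy z hz)).2 hz
  foundation x hx h := by
    obtain ⟨y, hy, hyx⟩ := h
    have hne : x ≠ ∅ := by
      rintro rfl
      exact ZFSet.notMem_empty y hyx
    obtain ⟨z, hz, hzx⟩ := ZFSet.regularity x hne
    refine ⟨z, htr x hx z hz, hz, fun w _ hw hwx => ?_⟩
    have : w ∈ x ∩ z := ZFSet.mem_inter.2 ⟨hwx, hw⟩
    rw [hzx] at this
    exact ZFSet.notMem_empty w this
  pairing x hx y hy := ⟨{x, y}, hpair x hx y hy, fun w _ => ZFSet.mem_pair⟩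
  union x hx := by
    obtain ⟨b, hb, h⟩ := hun x hx
    obtain ⟨u, hu, h'⟩ := hsep 1 (Fml.ex ((Fml.mem 0 2).conj (Fml.mem 1 0))) ![x]
      (fun i => by fin_cases i; exact hx) b hb
    refine ⟨u, hu, fun z hz => ?_⟩
    rw [h' z, Sat_ex]
    constructor
    · rintro ⟨_, y, hy, hs⟩
      have := Sat_conj.1 hs
      exact ⟨y, hy, this.1, this.2⟩
    · rintro ⟨y, hy, h1, h2⟩
      exact ⟨h y h1 z h2, y, hy, Sat_conj.2 ⟨h1, h2⟩⟩
  power x hx := by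
    obtain ⟨b, hb, h⟩ := hpow x hx
    obtain ⟨u, hu, h'⟩ := hsep 1 (Fml.all ((Fml.mem 0 1).imp (Fml.mem 0 2))) ![x]
      (fun i => by fin_cases i; exact hx) b hb
    refine ⟨u, hu, fun z hz => ?_⟩
    rw [h' z]
    constructor
    · rintro ⟨_, hs⟩ w hw hwz
      exact hs w hw hwz
    · intro hs
      exact ⟨h z hz (fun w hw => hs w (htr z hz w hw) hw), fun w hw hwz => hs w hw hwz⟩
  infinity := by
    obtain ⟨x, hx, h1, h2⟩ := hinf
    refine ⟨x, hx, ⟨∅, htr x hx _ h1, h1, fun z _ => ZFSet.notMem_empty z⟩, fun y _ hyx => ?_⟩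
    refine ⟨insert y y, htr x hx _ (h2 y hyx), h2 y hyx, fun w _ => ?_⟩
    rw [ZFSet.mem_insert_iff]
    exact or_comm
  separation n φ v hv a ha := by
    obtain ⟨b, hb, h⟩ := hsep n φ v hv a ha
    exact ⟨b, hb, fun x _ => h x⟩
  replacement n φ v hv a ha hfun := by
    obtain ⟨b, hb, h⟩ := hcol n φ v hv a ha
    let f : Fin (n + 2) → Fin (n + 3) := Fin.cons 0 (Fin.cons 1 (fun j => j.succ.succ.succ))
    obtain ⟨u, hu, h'⟩ := hsep (n + 1) (Fml.ex ((Fml.mem 0 2).conj (φ.rename f)))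
      (Fin.cons a v) (fun i => by
        refine Fin.cases ?_ (fun i => ?_) i
        · exact ha
        · exact hv i) b hb
    have key : ∀ x y, (fun j => (Fin.cons x (Fin.cons y (Fin.cons a v)) : Fin (n + 3) → ZFSet.{u})
        (f j)) = (Fin.cons x (Fin.cons y v) : Fin (n + 2) → ZFSet.{u}) := by
      intro x y
      funext j
      refine Fin.cases ?_ (fun j => ?_) j
      · rfl
      · refine Fin.cases ?_ (fun j => ?_) j
        · rfl
        · rfl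
    have hmem : ∀ x y, Sat E (Fml.mem 0 2)
        (Fin.cons x (Fin.cons y (Fin.cons a v)) : Fin (n + 3) → ZFSet.{u}) ↔ x ∈ a :=
      fun x y => Iff.rfl
    refine ⟨u, hu, fun y hy => ?_⟩
    rw [h' y, Sat_ex]
    constructor
    · rintro ⟨_, x, hx, hs⟩
      have h1 := Sat_conj.1 hs
      rw [hmem, Sat_rename, key] at h1
      exact ⟨x, hx, h1.1, h1.2⟩
    · rintro ⟨x, hx, hxa, hs⟩
      refine ⟨?_, x, hx, ?_⟩
      · obtain ⟨y', hy', hs'⟩ := h x hxa ⟨y, hy, hs⟩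
        have := (hfun x hx hxa).unique ⟨hy, hs⟩ ⟨htr b hb y' hy', hs'⟩
        rw [this]
        exact hy'
      · refine Sat_conj.2 ?_
        rw [hmem, Sat_rename, key]
        exact ⟨hxa, hs⟩

end Pool.NU
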